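import Mathlib

namespace Pool.Agent.MP_3bf391_gt

/-- `Cp X`: the continuous real functions on `X` with the topology of pointwise convergence,
that is, the subspace topology inherited from the product `X → ℝ`. -/
abbrev Cp (X : Type*) [TopologicalSpace X] : Type _ := {f : X → ℝ // Continuous f}

/-- Every cover by open sets has a point-countable refinement by open sets that still covers. -/
def IsMetalindelof (Z : Type*) [TopologicalSpace Z] : Prop :=
  ∀ 𝒰 : Set (Set Z), (∀ U ∈ 𝒰, IsOpen U) → ⋃₀ 𝒰 = Set.univ →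
    ∃ 𝒱 : Set (Set Z), (∀ V ∈ 𝒱, IsOpen V) ∧ ⋃₀ 𝒱 = Set.univ ∧
      (∀ V ∈ 𝒱, ∃ U ∈ 𝒰, V ⊆ U) ∧ ∀ z : Z, {V | V ∈ 𝒱 ∧ z ∈ V}.Countable

end Pool.Agent.MP_3bf391_gt
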